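import Pool.Agent.Lib.Crit79.Final

set_option autoImplicit false

open Polynomial Filter Topology

namespace Pool.Agent.Results.MP_41de88_nt.AlmostAllZero

open Pool.Agent.Lib.MP_41de88_nt Pool.Agent.Lib.Crit79

/-- For every degree `d ≥ 2`, all but a proportion `ε` of the polynomials `f = F / D` of degree `d`
with `1 ≤ D ≤ H'` and integer coefficients of `F` bounded by `H` have the property that `S(f, α)`
has density zero for every rational `α` whose orbit avoids the critical points. -/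
theorem result (d : ℕ) (hd : 2 ≤ d) (ε : ℝ) (hε : 0 < ε) :
    ∃ H₀ : ℕ, ∀ H ≥ H₀, ∀ H' ≥ 1,
      ({f ∈ polys d H H' | ¬ ∀ (α : ℚ) (K : Type) [Field K] [NumberField K]
        [IsSplittingField ℚ K f.derivative],
        (∀ (n : ℕ) (c : K), aeval c f.derivative = 0 →
          algebraMap ℚ K ((fun x => f.eval x)^[n] α) ≠ c) →
        Tendsto (fun n : ℕ => ({p | p ≤ n ∧ p ∈ critPrimes f α K}.ncard : ℝ) / Nat.primeCounting n)
          atTop (𝓝 0)}.ncard : ℝ) ≤ ε * (polys d H H').ncard := by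
  obtain ⟨H₀, h⟩ := most_fpp hd hε
  refine ⟨H₀, fun H hH H' _ => le_trans (Nat.cast_le.mpr (Set.ncard_le_ncard ?_
    ((polys_finite d H H').subset fun _ hf => hf.1))) (h H hH H')⟩
  rintro f ⟨h1, h2⟩
  exact ⟨h1, fun h3 => h2 fun α K _ _ _ hα =>
    (small_crit h3.1 h3.2.1 h3.2.2 hα).tendsto fun _ hp => hp.1⟩

end Pool.Agent.Results.MP_41de88_nt.AlmostAllZero
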