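import Pool.Agent.Lib.MP_41de88_nt.WildInsepMain
import Pool.Agent.Lib.MP_41de88_nt.TameMain

set_option autoImplicit false

open Polynomial Filter Topology

namespace Pool.Agent.Results.MP_41de88_nt.DensityZero

open Pool.Agent.Lib.MP_41de88_nt

/-- Let `f` have odd degree `d ≥ 3`, at least one critical point with infinite orbit, and let all
critical points with infinite orbit be simple and alone over their critical value. If at some prime
`q` the monic conjugate of `f` reduces to `X^d` with `q ∤ d`, or `d = q` and it is congruent to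
`X^q + A X + B` modulo `q`, then `S(f, α)` has density zero. -/
theorem result (f : ℚ[X]) (α : ℚ) (K : Type) [Field K] [NumberField K]
    [IsSplittingField ℚ K f.derivative] (hd : 3 ≤ f.natDegree) (hodd : Odd f.natDegree)
    (hw : ∃ c : K, aeval c f.derivative = 0 ∧
      (Set.range fun n : ℕ => (fun x : K => aeval x f)^[n] c).Infinite)
    (hs : ∀ c : K, aeval c f.derivative = 0 →
      (Set.range fun n : ℕ => (fun x : K => aeval x f)^[n] c).Infinite →
        aeval c f.derivative.derivative ≠ 0 ∧
          ∀ c' : K, aeval c' f.derivative = 0 → aeval c' f = aeval c f → c' = c)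
    (q : ℕ) (b : ℚ) (hq : q.Prime)
    (hloc : (¬ q ∣ f.natDegree ∧ ∀ i < f.natDegree, (f.comp (X + C b) - C b).coeff i ≠ 0 →
        ((i : ℤ) - 1) * padicValRat q f.leadingCoeff
          < (f.natDegree - 1) * padicValRat q ((f.comp (X + C b) - C b).coeff i)) ∨
      (f.natDegree = q ∧ ∀ i < q, (f.comp (X + C b) - C b).coeff i ≠ 0 →
        ((i : ℤ) - 1) * padicValRat q f.leadingCoeff + (q - 1) * (if 2 ≤ i then 1 else 0)
          ≤ (q - 1) * padicValRat q ((f.comp (X + C b) - C b).coeff i)))
    (hα : ∀ (n : ℕ) (c : K), aeval c f.derivative = 0 →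
      algebraMap ℚ K ((fun x => f.eval x)^[n] α) ≠ c) :
    Tendsto (fun n : ℕ => ({p | p ≤ n ∧ p ∈ critPrimes f α K}.ncard : ℝ) / Nat.primeCounting n)
      atTop (𝓝 0) := by
  have hc : ∀ (M : Type) [Field M] [NumberField M],
      (f.derivative.map (algebraMap ℚ M)).Splits → CritOK f M := fun M _ _ hM =>
    critOK_of_critOK (derivative_ne_zero' (by omega)) (IsSplittingField.splits K _) hM ⟨hw, hs⟩
  have hα' : ∀ n, aeval ((fun x => f.eval x)^[n] α) f.derivative ≠ 0 := fun n e =>
    hα n _ (by rw [aeval_algebraMap_apply, e, map_zero]) rfl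
  refine Small.tendsto ?_ fun _ hp => hp.1
  rcases hloc with h | h
  · exact small_tame (b := b) ⟨hq, h⟩ hd hodd hc hα' K
  · exact small_wild (b := b) ⟨hq, h⟩ (by omega) hc hα' K

end Pool.Agent.Results.MP_41de88_nt.DensityZero
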